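import Pool.Agent.K3h30.RS.Stm2

/-!
# `ℝ ⊗ U_S` injects into the space of logarithms
-/

set_option autoImplicit false

open NumberField IsDedekindDomain Filter Topology

noncomputable section

namespace Pool.Agent.K3h40.RS

open Pool.Agent.K3h30.RS NumberField.Units NumberField.Units.dirichletUnitTheorem

theorem unit_functional (H : Type) [Field H] [NumberField H] (f : Additive (𝓞 H)ˣ →+ ℝ) :
    ∃ g : logSpace H →ₗ[ℝ] ℝ, ∀ u : (𝓞 H)ˣ,
      f (Additive.ofMul u) = g (logEmbedding H (Additive.ofMul u)) := by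
  classical
  let B := (basisUnitLattice H).ofZLatticeBasis ℝ (unitLattice H)
  refine ⟨B.constr ℝ (fun i => f (Additive.ofMul (fundSystem H i))), fun u => ?_⟩
  obtain ⟨⟨ζ, e⟩, h, -⟩ := exist_unique_eq_mul_prod H u
  simp only at h
  have hζ : f (Additive.ofMul (ζ : (𝓞 H)ˣ)) = 0 := by
    have h1 : IsOfFinOrder (ζ : (𝓞 H)ˣ) := (CommGroup.mem_torsion (ζ : (𝓞 H)ˣ)).1 ζ.2
    obtain ⟨n, hn, h2⟩ := isOfFinOrder_iff_pow_eq_one.1 h1
    have h3 : n • f (Additive.ofMul (ζ : (𝓞 H)ˣ)) = 0 := by
      rw [← map_nsmul, ← ofMul_pow, h2, ofMul_one, map_zero]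
    rw [nsmul_eq_mul] at h3
    rcases mul_eq_zero.1 h3 with h4 | h4
    · exact absurd (by exact_mod_cast h4) hn.ne'
    · exact h4
  have hζ' : logEmbedding H (Additive.ofMul (ζ : (𝓞 H)ˣ)) = 0 := logEmbedding_eq_zero_iff.2 ζ.2
  have key : ∀ (W : Type) [AddCommGroup W] (F : Additive (𝓞 H)ˣ →+ W),
      F (Additive.ofMul u) = F (Additive.ofMul (ζ : (𝓞 H)ˣ)) +
        ∑ i, e i • F (Additive.ofMul (fundSystem H i)) := by
    intro W _ F
    conv_lhs => rw [h]
    rw [ofMul_mul, ofMul_prod, map_add, map_sum]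
    congr 1
    refine Finset.sum_congr rfl fun i _ => ?_
    rw [ofMul_zpow, map_zsmul]
  rw [key ℝ f, key _ (logEmbedding H), hζ, hζ', zero_add, zero_add, map_sum]
  refine Finset.sum_congr rfl fun i _ => ?_
  rw [map_zsmul, logEmbedding_fundSystem]
  congr 1
  have : ((basisUnitLattice H i : unitLattice H) : logSpace H) = B i := by
    rw [Module.Basis.ofZLatticeBasis_apply]
  rw [this, Module.Basis.constr_basis]

theorem int_basis (n : ℕ) (a : Fin n → ℝ) : ∃ (d : ℕ) (b : Fin d → ℝ) (m : Fin n → Fin d → ℤ),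
    (∀ k, a k = ∑ j, (m k j : ℝ) * b j) ∧
      ∀ z : Fin d → ℤ, ∑ j, (z j : ℝ) * b j = 0 → ∀ j, z j = 0 := by
  classical
  let M : Submodule ℤ ℝ := Submodule.span ℤ (Set.range a)
  have hfin : Module.Finite ℤ M := Module.Finite.span_of_finite ℤ (Set.finite_range a)
  let B := Module.finBasis ℤ M
  refine ⟨_, fun j => (B j : ℝ), fun k j => B.repr ⟨a k, Submodule.subset_span ⟨k, rfl⟩⟩ j, ?_, ?_⟩
  · intro k
    have h := congrArg (fun z : M => (z : ℝ)) (B.sum_repr ⟨a k, Submodule.subset_span ⟨k, rfl⟩⟩)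
    simp only [Submodule.coe_sum, Submodule.coe_smul, zsmul_eq_mul] at h
    exact h.symm
  · intro z hz
    have h := Fintype.linearIndependent_iff.1 B.linearIndependent z ?_
    · exact h
    · apply Subtype.ext
      simp only [Submodule.coe_sum, Submodule.coe_smul, zsmul_eq_mul, Submodule.coe_zero]
      exact hz

/-- the logarithm of an absolute value -/
def lg {H : Type} [Field H] (v : AbsoluteValue H ℝ) : Additive Hˣ →+ ℝ where
  toFun x := Real.log (v ((Additive.toMul x : Hˣ) : H))
  map_zero' := by simp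
  map_add' x y := by
    rw [toMul_add, Units.val_mul, map_mul, Real.log_mul]
    · exact v.ne_zero (Units.ne_zero _)
    · exact v.ne_zero (Units.ne_zero _)

theorem lg_apply {H : Type} [Field H] (v : AbsoluteValue H ℝ) (x : Hˣ) :
    lg v (Additive.ofMul x) = Real.log (v (x : H)) := rfl

theorem lg_adic {H : Type} [Field H] [NumberField H] (w : HeightOneSpectrum (𝓞 H)) (x : Hˣ) :
    ∃ o : ℤ, lg (HeightOneSpectrum.adicAbv H w) (Additive.ofMul x) =
      o * Real.log (Ideal.absNorm w.asIdeal : ℝ) := by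
  have hne : w.valuation H (x : H) ≠ 0 := (Valuation.ne_zero_iff _).2 x.ne_zero
  refine ⟨(WithZero.unzero hne).toAdd, ?_⟩
  rw [lg_apply, HeightOneSpectrum.adicAbv_def, WithZeroMulInt.toNNReal_neg_apply _ hne]
  push_cast
  rw [Real.log_zpow]

theorem val_eq_one_of_lg {H : Type} [Field H] [NumberField H] (w : HeightOneSpectrum (𝓞 H))
    (x : Hˣ) (h : lg (HeightOneSpectrum.adicAbv H w) (Additive.ofMul x) = 0) :
    w.valuation H (x : H) = 1 := by
  have hne : w.valuation H (x : H) ≠ 0 := (Valuation.ne_zero_iff _).2 x.ne_zero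
  rw [lg_apply, HeightOneSpectrum.adicAbv_def, WithZeroMulInt.toNNReal_neg_apply _ hne] at h
  push_cast at h
  rw [Real.log_zpow] at h
  have hN : (1 : ℝ) < Ideal.absNorm w.asIdeal := by
    exact_mod_cast HeightOneSpectrum.one_lt_absNorm w
  have hlog := Real.log_pos hN
  have h0 : (WithZero.unzero hne).toAdd = 0 := by
    rcases mul_eq_zero.1 h with h1 | h1
    · exact_mod_cast h1
    · exact absurd h1 hlog.ne'
  have h1 : WithZero.unzero hne = 1 := by
    rw [← toAdd_eq_zero]
    exact h0
  rw [← WithZero.coe_unzero hne, h1]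
  rfl

theorem exists_unit {H : Type} [Field H] [NumberField H] (y : Hˣ)
    (h : ∀ w : HeightOneSpectrum (𝓞 H), w.valuation H (y : H) = 1) :
    ∃ u : (𝓞 H)ˣ, ((u : 𝓞 H) : H) = (y : H) := by
  obtain ⟨z, hz⟩ := HeightOneSpectrum.mem_integers_of_valuation_le_one H (y : H)
    (fun w => (h w).le)
  obtain ⟨z', hz'⟩ := HeightOneSpectrum.mem_integers_of_valuation_le_one H ((y⁻¹ : Hˣ) : H)
    (fun w => by rw [Units.val_inv_eq_inv_val, map_inv₀, h w, inv_one])
  have h1 : z * z' = 1 := by
    apply FaithfulSMul.algebraMap_injective (𝓞 H) H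
    rw [map_mul, hz, hz', map_one, Units.mul_inv]
  exact ⟨⟨z, z', h1, by rw [mul_comm]; exact h1⟩, hz⟩

theorem t_LOGINJ : S_LOGINJ := by
  intro H _ _ S hS n a x hinf hfin f
  classical
  obtain ⟨d, b, m, ha, hb⟩ := int_basis n a
  -- the combinations
  let y : Fin d → S.unit H := fun j => ∏ k, x k ^ m k j
  have key : ∀ (F : Additive (S.unit H) →+ ℝ),
      ∑ k, a k * F (Additive.ofMul (x k)) = ∑ j, b j * F (Additive.ofMul (y j)) := by
    intro F
    have h1 : ∀ j, F (Additive.ofMul (y j)) = ∑ k, (m k j : ℝ) * F (Additive.ofMul (x k)) := by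
      intro j
      rw [ofMul_prod, map_sum]
      refine Finset.sum_congr rfl fun k _ => ?_
      rw [ofMul_zpow, map_zsmul, zsmul_eq_mul]
    simp only [h1, Finset.mul_sum]
    rw [Finset.sum_comm]
    refine Finset.sum_congr rfl fun k _ => ?_
    rw [ha k, Finset.sum_mul]
    refine Finset.sum_congr rfl fun j _ => ?_
    ring
  let incl : Additive (S.unit H) →+ Additive Hˣ := MonoidHom.toAdditive (S.unit H).subtype
  -- the `y j` are units
  have hval : ∀ j (w : HeightOneSpectrum (𝓞 H)), w.valuation H ((y j : Hˣ) : H) = 1 := by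
    intro j w
    by_cases hw : w ∈ S
    · apply val_eq_one_of_lg
      let L : Additive Hˣ →+ ℝ := lg (HeightOneSpectrum.adicAbv H w)
      choose o ho using fun k => lg_adic w ((x k : Hˣ))
      have hN : (1 : ℝ) < Ideal.absNorm w.asIdeal := by
        exact_mod_cast HeightOneSpectrum.one_lt_absNorm w
      have hlog := Real.log_pos hN
      have h1 : ∑ k, a k * (o k : ℝ) = 0 := by
        have h2 := hfin w hw
        have h3 : ∑ k, a k * Real.log (HeightOneSpectrum.adicAbv H w ((x k : Hˣ) : H)) =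
            (∑ k, a k * (o k : ℝ)) * Real.log (Ideal.absNorm w.asIdeal : ℝ) := by
          rw [Finset.sum_mul]
          refine Finset.sum_congr rfl fun k _ => ?_
          rw [← lg_apply, ho k]
          ring
        rw [h3] at h2
        exact (mul_eq_zero.1 h2).resolve_right hlog.ne'
      have h2 : ∑ j', ((∑ k, m k j' * o k : ℤ) : ℝ) * b j' = 0 := by
        rw [← h1]
        have : ∀ j', ((∑ k, m k j' * o k : ℤ) : ℝ) * b j' =
            ∑ k, ((m k j' : ℝ) * b j') * (o k : ℝ) := by
          intro j'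
          push_cast
          rw [Finset.sum_mul]
          refine Finset.sum_congr rfl fun k _ => ?_
          ring
        simp only [this]
        rw [Finset.sum_comm]
        refine Finset.sum_congr rfl fun k _ => ?_
        rw [← Finset.sum_mul, ← ha k]
      have h3 := hb _ h2 j
      have h4 : (L.comp incl) (Additive.ofMul (y j)) =
          ∑ k, (m k j : ℝ) * (L.comp incl) (Additive.ofMul (x k)) := by
        rw [ofMul_prod, map_sum]
        refine Finset.sum_congr rfl fun k _ => ?_
        rw [ofMul_zpow, map_zsmul, zsmul_eq_mul]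
      have h5 : lg (HeightOneSpectrum.adicAbv H w) (Additive.ofMul ((y j : Hˣ))) =
          (L.comp incl) (Additive.ofMul (y j)) := rfl
      rw [h5, h4]
      have h6 : ∀ k, (L.comp incl) (Additive.ofMul (x k)) =
          (o k : ℝ) * Real.log (Ideal.absNorm w.asIdeal : ℝ) := fun k => ho k
      simp only [h6]
      have h7 : ∑ k, (m k j : ℝ) * ((o k : ℝ) * Real.log (Ideal.absNorm w.asIdeal : ℝ)) =
          ((∑ k, m k j * o k : ℤ) : ℝ) * Real.log (Ideal.absNorm w.asIdeal : ℝ) := by
        push_cast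
        rw [Finset.sum_mul]
        refine Finset.sum_congr rfl fun k _ => ?_
        ring
      rw [h7, h3]
      simp
    · exact S.unit_valuation_eq_one H (y j) hw
  choose u hu using fun j => exists_unit ((y j : Hˣ)) (hval j)
  -- the homomorphism from the units
  let θ : (𝓞 H)ˣ →* S.unit H :=
    { toFun := fun u => ⟨Units.map (algebraMap (𝓞 H) H).toMonoidHom u, fun w _ => by
        have h1 : w.valuation H ((u : 𝓞 H) : H) ≤ 1 := w.valuation_le_one _
        have h2 : w.valuation H (((u⁻¹ : (𝓞 H)ˣ) : 𝓞 H) : H) ≤ 1 := w.valuation_le_one _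
        have h3 : w.valuation H ((u : 𝓞 H) : H) *
            w.valuation H (((u⁻¹ : (𝓞 H)ˣ) : 𝓞 H) : H) = 1 := by
          rw [← map_mul, ← map_mul, Units.mul_inv, map_one, map_one]
        refine le_antisymm h1 ?_
        by_contra hlt
        have hlt' : w.valuation H ((u : 𝓞 H) : H) < 1 := not_le.1 hlt
        have h4 := mul_lt_one_of_lt_of_le hlt' h2
        rw [h3] at h4
        exact lt_irrefl _ h4⟩
      map_one' := by
        apply Subtype.ext
        simp
      map_mul' := fun u v => by
        apply Subtype.ext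
        simp }
  obtain ⟨g, hg⟩ := unit_functional H (f.comp (MonoidHom.toAdditive θ))
  have hy : ∀ j, θ (u j) = y j := by
    intro j
    apply Subtype.ext
    apply Units.ext
    exact hu j
  have hf : ∀ j, f (Additive.ofMul (y j)) = g (logEmbedding H (Additive.ofMul (u j))) := by
    intro j
    rw [← hg, ← hy j]
    rfl
  rw [key f]
  simp only [hf]
  have h1 : ∑ j, b j * g (logEmbedding H (Additive.ofMul (u j))) =
      g (∑ j, b j • logEmbedding H (Additive.ofMul (u j))) := by
    rw [map_sum]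
    refine Finset.sum_congr rfl fun j _ => ?_
    rw [map_smul, smul_eq_mul]
  rw [h1]
  have h2 : ∑ j, b j • logEmbedding H (Additive.ofMul (u j)) = 0 := by
    funext w
    rw [Finset.sum_apply, Pi.zero_apply]
    have h3 := key ((lg w.1.1).comp incl)
    have h4 : ∑ k, a k * ((lg w.1.1).comp incl) (Additive.ofMul (x k)) = 0 := hinf w.1
    rw [h4] at h3
    have h5 : ∀ j, (b j • logEmbedding H (Additive.ofMul (u j))) w =
        (w.1.mult : ℝ) * (b j * ((lg w.1.1).comp incl) (Additive.ofMul (y j))) := by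
      intro j
      rw [Pi.smul_apply, logEmbedding_component, smul_eq_mul]
      have h6 : ((lg w.1.1).comp incl) (Additive.ofMul (y j)) = Real.log (w.1 ((y j : Hˣ) : H)) := rfl
      rw [h6, ← hu j]
      ring
    simp only [h5]
    rw [← Finset.mul_sum, ← h3, mul_zero]
  rw [h2, map_zero]

end Pool.Agent.K3h40.RS
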