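import Pool.Agent.K3h30.RS.Stm2
import Pool.Agent.K3h25.RS.Trans
import Pool.Agent.K3h62.RS.LFUN

/-!
# The `χ`-functionals on `U_S` are spanned by the regulators
-/

set_option autoImplicit false

open NumberField IsDedekindDomain Filter Topology

noncomputable section

namespace Pool.Agent.K3h40.RS

open Pool.Agent.K3h30.RS

section

variable {F H G : Type} [Field F] [NumberField F] [Field H] [NumberField H] [Algebra F H]
  [CommGroup G] [Finite G] [MulSemiringAction G H]

theorem av_pos (w : Place H) (x : Hˣ) : 0 < av w (x : H) := by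
  rcases w with w | w
  · exact pow_pos (InfinitePlace.pos_iff.2 x.ne_zero) _
  · exact (HeightOneSpectrum.adicAbv H w).pos x.ne_zero

omit [NumberField H] [Finite G] in
theorem act_val (γ : G) (x : Hˣ) : ((act γ x : Hˣ) : H) = γ • (x : H) := rfl

omit [NumberField H] [Finite G] in
theorem act_act (γ δ : G) (x : Hˣ) : act γ (act δ x) = act (γ * δ) x := by
  apply Units.ext
  rw [act_val, act_val, act_val, mul_smul]

/-- the `χ`-component of the logarithm at `w` -/
def PP (χ : G →* ℂˣ) (w : Place H) (x : Hˣ) : ℂ :=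
  letI := Fintype.ofFinite G
  ∑ γ : G, ((χ γ : ℂ))⁻¹ * ((Real.log (av w ((act γ x : Hˣ) : H)) : ℝ) : ℂ)

theorem charValue_reg (χ : G →* ℂˣ) (w : Place H) (x : Hˣ) :
    charValue χ (reg G w x) = PP χ w x := by
  let _ := Fintype.ofFinite G
  rw [Pool.Agent.K3h62.RS.charValue_eq]
  unfold reg PP
  rw [map_sum, ← Equiv.sum_comp (Equiv.inv G)]
  refine Finset.sum_congr rfl fun γ _ => ?_
  rw [Pool.Agent.K3h62.RS.cvHom_single, Equiv.inv_apply, inv_inv, map_inv]
  rw [Units.val_inv_eq_inv_val]
  ring

theorem PP_conj (χ : G →* ℂˣ) (w w' : Place H) (g : G) (h : ∀ x : H, av w x = av w' (g • x))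
    (x : Hˣ) : PP χ w x = (χ g : ℂ) * PP χ w' x := by
  let _ := Fintype.ofFinite G
  unfold PP
  rw [Finset.mul_sum, ← Equiv.sum_comp (Equiv.mulLeft g) (fun γ => (χ g : ℂ) *
    (((χ γ : ℂ))⁻¹ * ((Real.log (av w' ((act γ x : Hˣ) : H)) : ℝ) : ℂ)))]
  refine Finset.sum_congr rfl fun γ _ => ?_
  simp only [Equiv.coe_mulLeft]
  rw [h, act_val, act_val, mul_smul, map_mul, Units.val_mul, mul_inv, ← mul_assoc, ← mul_assoc,
    mul_inv_cancel₀ (χ g).ne_zero, one_mul]

/-- the product formula for `T`-units -/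
theorem prod_formula (T : Finset (HeightOneSpectrum (𝓞 H))) (x : Hˣ)
    (hx : ∀ w, w ∉ T → w.valuation H (x : H) = 1) :
    ∑ w ∈ (Finset.univ : Finset (InfinitePlace H)).disjSum T, Real.log (av w (x : H)) = 0 := by
  classical
  rw [Finset.sum_disjSum]
  have h1 := NumberField.prod_abs_eq_one (K := H) x.ne_zero
  have h2 : ∏ᶠ w : FinitePlace H, w (x : H) = ∏ w ∈ T, HeightOneSpectrum.adicAbv H w (x : H) := by
    rw [← finprod_comp_equiv FinitePlace.equivHeightOneSpectrum.symm]
    have h3 : ∀ w : HeightOneSpectrum (𝓞 H), (FinitePlace.equivHeightOneSpectrum.symm w) (x : H) =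
        HeightOneSpectrum.adicAbv H w (x : H) := by
      intro w
      rw [FinitePlace.equivHeightOneSpectrum_symm_apply, FinitePlace.norm_embedding]
    simp only [h3]
    refine finprod_eq_prod_of_mulSupport_subset _ ?_
    intro w hw
    by_contra hwT
    apply hw
    have h4 := hx w (by simpa using hwT)
    change HeightOneSpectrum.adicAbv H w (x : H) = 1
    rw [HeightOneSpectrum.adicAbv_def, h4, map_one]
    rfl
  rw [h2] at h1
  have h3 : ∀ w : InfinitePlace H, av (Sum.inl w) (x : H) ≠ 0 := fun w => (av_pos _ x).ne'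
  have h4 : ∀ w : HeightOneSpectrum (𝓞 H), av (Sum.inr w) (x : H) ≠ 0 := fun w => (av_pos _ x).ne'
  rw [← Real.log_prod (fun w _ => h3 w), ← Real.log_prod (fun w _ => h4 w),
    ← Real.log_mul (Finset.prod_ne_zero_iff.2 fun w _ => h3 w)
      (Finset.prod_ne_zero_iff.2 fun w _ => h4 w)]
  have h5 : (∏ w : InfinitePlace H, av (Sum.inl w) (x : H)) *
      ∏ w ∈ T, av (Sum.inr w) (x : H) = 1 := h1
  rw [h5, Real.log_one]

/-- the prime ideals over `S` are finitely many -/
theorem above_finite (S : Finset (HeightOneSpectrum (𝓞 F))) :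
    {w : HeightOneSpectrum (𝓞 H) | Above (S : Set (HeightOneSpectrum (𝓞 F))) w}.Finite := by
  have h : {w : HeightOneSpectrum (𝓞 H) | Above (S : Set (HeightOneSpectrum (𝓞 F))) w} ⊆
      ⋃ v ∈ S, {w : HeightOneSpectrum (𝓞 H) | Above {v} w} := by
    rintro w ⟨v, hv, hw⟩
    exact Set.mem_biUnion hv ⟨v, rfl, hw⟩
  refine Set.Finite.subset ?_ h
  exact Set.Finite.biUnion S.finite_toSet fun v _ => (Pool.Agent.K3h25.RS.t_OVER F H v).2

end

section

variable {F H : Type} [Field F] [NumberField F] [Field H] [NumberField H] [Algebra F H]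

abbrev US (S : Finset (HeightOneSpectrum (𝓞 F))) (H : Type) [Field H] [NumberField H]
    [Algebra F H] : Subgroup Hˣ :=
  unitGroup (H := H) (S : Set (HeightOneSpectrum (𝓞 F))) ∅

theorem loginj_real (hL : S_LOGINJ) (S : Finset (HeightOneSpectrum (𝓞 F))) {ι : Type} [Fintype ι]
    (a : ι → ℝ) (x : ι → US S H)
    (h : ∀ w : Place H, InS (S : Set (HeightOneSpectrum (𝓞 F))) w →
      ∑ k, a k * Real.log (av w ((x k : Hˣ) : H)) = 0)
    (f : Additive (US S H) →+ ℝ) : ∑ k, a k * f (Additive.ofMul (x k)) = 0 := by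
  classical
  let SH : Set (HeightOneSpectrum (𝓞 H)) :=
    {w | Above (S : Set (HeightOneSpectrum (𝓞 F))) w}
  have hfin : SH.Finite := above_finite S
  let θ : SH.unit H →* US S H :=
    { toFun := fun u => ⟨(u : Hˣ), ⟨fun w hw => SH.unit_valuation_eq_one H u hw,
        fun w hw => by
          obtain ⟨v, hv, _⟩ := hw
          exact absurd hv (Set.notMem_empty v)⟩⟩
      map_one' := rfl
      map_mul' := fun _ _ => rfl }
  let e := Fintype.equivFin ι
  let y : Fin (Fintype.card ι) → SH.unit H := fun k => ⟨((x (e.symm k) : US S H) : Hˣ),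
    fun w hw => (x (e.symm k)).2.1 w hw⟩
  have h1 := hL H SH hfin (Fintype.card ι) (fun k => a (e.symm k)) y ?_ ?_
    (f.comp (MonoidHom.toAdditive θ))
  · rw [← h1, ← Equiv.sum_comp e.symm]
    rfl
  · intro w
    have h2 := h (Sum.inl w) trivial
    rw [← Equiv.sum_comp e.symm] at h2
    have h3 : ∀ k, a (e.symm k) * Real.log (av (Sum.inl w) ((x (e.symm k) : Hˣ) : H)) =
        (w.mult : ℝ) * (a (e.symm k) * Real.log (w ((y k : Hˣ) : H))) := by
      intro k
      change a (e.symm k) * Real.log (w ((x (e.symm k) : Hˣ) : H) ^ w.mult) = _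
      rw [Real.log_pow]
      ring
    simp only [h3] at h2
    rw [← Finset.mul_sum] at h2
    exact (mul_eq_zero.1 h2).resolve_left InfinitePlace.mult_coe_ne_zero
  · intro w hw
    have h2 := h (Sum.inr w) hw
    rw [← Equiv.sum_comp e.symm] at h2
    exact h2

theorem loginj_complex (hL : S_LOGINJ) (S : Finset (HeightOneSpectrum (𝓞 F))) {ι : Type}
    [Fintype ι] (b : ι → ℂ) (x : ι → US S H)
    (h : ∀ w : Place H, InS (S : Set (HeightOneSpectrum (𝓞 F))) w →
      ∑ k, b k * ((Real.log (av w ((x k : Hˣ) : H)) : ℝ) : ℂ) = 0)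
    (g : Additive (US S H) →+ ℂ) : ∑ k, b k * g (Additive.ofMul (x k)) = 0 := by
  have hre : ∀ w : Place H, InS (S : Set (HeightOneSpectrum (𝓞 F))) w →
      ∑ k, (b k).re * Real.log (av w ((x k : Hˣ) : H)) = 0 := by
    intro w hw
    have h1 := congrArg Complex.re (h w hw)
    rw [Complex.re_sum] at h1
    simpa using h1
  have him : ∀ w : Place H, InS (S : Set (HeightOneSpectrum (𝓞 F))) w →
      ∑ k, (b k).im * Real.log (av w ((x k : Hˣ) : H)) = 0 := by
    intro w hw
    have h1 := congrArg Complex.im (h w hw)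
    rw [Complex.im_sum] at h1
    simpa using h1
  let gr : Additive (US S H) →+ ℝ := Complex.reAddGroupHom.comp g
  let gi : Additive (US S H) →+ ℝ := Complex.imAddGroupHom.comp g
  have r1 := loginj_real hL S (fun k => (b k).re) x hre gr
  have r2 := loginj_real hL S (fun k => (b k).re) x hre gi
  have r3 := loginj_real hL S (fun k => (b k).im) x him gr
  have r4 := loginj_real hL S (fun k => (b k).im) x him gi
  have e1 : ∀ k, gr (Additive.ofMul (x k)) = (g (Additive.ofMul (x k))).re := fun _ => rfl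
  have e2 : ∀ k, gi (Additive.ofMul (x k)) = (g (Additive.ofMul (x k))).im := fun _ => rfl
  simp only [e1, e2] at r1 r2 r3 r4
  apply Complex.ext
  · rw [Complex.re_sum]
    simp only [Complex.mul_re, Finset.sum_sub_distrib, r1, r4, Complex.zero_re, sub_zero]
  · rw [Complex.im_sum]
    simp only [Complex.mul_im, Finset.sum_add_distrib, r2, r3, Complex.zero_im, add_zero]

end

section

variable {F H G : Type} [Field F] [NumberField F] [Field H] [NumberField H] [Algebra F H]
  [CommGroup G] [Finite G] [MulSemiringAction G H] [IsGaloisGroup G F H]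

/-- `U_S` is stable under `G` -/
theorem act_mem (S : Finset (HeightOneSpectrum (𝓞 F))) (γ : G) (x : Hˣ) (hx : x ∈ US S H) :
    act γ x ∈ US S H := by
  refine ⟨fun w hw => ?_, fun w hw => ?_⟩
  · have hp : (w.asIdeal.comap (algebraMap (𝓞 F) (𝓞 H))).IsPrime := by
      have := w.isPrime
      exact Ideal.comap_isPrime _ _
    have hne : w.asIdeal.comap (algebraMap (𝓞 F) (𝓞 H)) ≠ ⊥ :=
      Ideal.IsIntegral.comap_ne_bot (𝓞 F) w.ne_bot
    let v : HeightOneSpectrum (𝓞 F) := ⟨_, hp, hne⟩
    have hv : Above {v} w := ⟨v, rfl, rfl⟩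
    obtain ⟨w', hw', hval⟩ := (Pool.Agent.K3h25.RS.t_TRANS F H G v w hv).1 γ
    rw [act_val, ← hval]
    refine hx.1 w' fun hw'' => hw ?_
    obtain ⟨v', hv', h1⟩ := hw'
    rw [Set.mem_singleton_iff] at hv'
    obtain ⟨v'', hv'', h2⟩ := hw''
    have h3 : v'' = v := by
      apply HeightOneSpectrum.ext
      rw [← h2, h1, hv']
    exact ⟨v'', hv'', by rw [h3]⟩
  · obtain ⟨v, hv, _⟩ := hw
    exact absurd hv (Set.notMem_empty v)

theorem t_SPANREG : S_LOGINJ → S_SPANREG := by
  intro hL F H G _ _ _ _ _ _ _ _ _ D χ hχ g hg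
  classical
  let _ := Fintype.ofFinite G
  let L : Fin D.r → (US D.S H →₀ ℂ) →ₗ[ℂ] ℂ := fun i =>
    Finsupp.linearCombination ℂ (fun x : US D.S H => charValue χ (reg G (D.w i) (x : Hˣ)))
  let K : (US D.S H →₀ ℂ) →ₗ[ℂ] ℂ :=
    Finsupp.linearCombination ℂ (fun x : US D.S H => g (Additive.ofMul x))
  have h : ⨅ i, LinearMap.ker (L i) ≤ LinearMap.ker K := by
    intro c hc
    rw [Submodule.mem_iInf] at hc
    let Λ : Place H → ℂ := fun w => ∑ x ∈ c.support, c x * PP χ w (x : Hˣ)
    have hΛi : ∀ i, Λ (D.w i) = 0 := by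
      intro i
      have h1 := LinearMap.mem_ker.1 (hc i)
      simp only [L, Finsupp.linearCombination_apply, Finsupp.sum, smul_eq_mul,
        charValue_reg] at h1
      exact h1
    have hconj : ∀ (w w' : Place H) (γ : G), (∀ x : H, av w x = av w' (γ • x)) →
        Λ w = (χ γ : ℂ) * Λ w' := by
      intro w w' γ hw
      simp only [Λ]
      rw [Finset.mul_sum]
      refine Finset.sum_congr rfl fun x _ => ?_
      rw [PP_conj χ w w' γ hw]
      ring
    have hΛ : ∀ w : Place H, InS (D.S : Set (HeightOneSpectrum (𝓞 F))) w → Λ w = 0 := by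
      intro w hw
      by_cases hwi : ∃ i, Conj G w (D.w i)
      · obtain ⟨i, γ, hγ⟩ := hwi
        rw [hconj w (D.w i) γ hγ, hΛi i, mul_zero]
      push Not at hwi
      rcases hχ with hχ | ⟨hχ, hχ'⟩
      · obtain ⟨γ, hγ, hγ'⟩ := hχ w hw hwi
        have h1 := hconj w w γ fun x => (hγ x).symm
        have h2 : (1 - (χ γ : ℂ)) * Λ w = 0 := by
          rw [sub_mul, one_mul, ← h1, sub_self]
        rcases mul_eq_zero.1 h2 with h3 | h3
        · exfalso
          apply hγ'
          apply Units.ext
          rw [Units.val_one]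
          exact (sub_eq_zero.1 h3).symm
        · exact h3
      · let T : Finset (HeightOneSpectrum (𝓞 H)) := (above_finite (H := H) D.S).toFinset
        have hT : ∀ w : HeightOneSpectrum (𝓞 H), w ∈ T ↔
            Above (D.S : Set (HeightOneSpectrum (𝓞 F))) w := by
          intro w
          simp [T]
        let A : Finset (Place H) := (Finset.univ : Finset (InfinitePlace H)).disjSum T
        have hA : ∀ w : Place H, w ∈ A ↔ InS (D.S : Set (HeightOneSpectrum (𝓞 F))) w := by
          intro w
          rcases w with w | w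
          · simp only [A, Finset.inl_mem_disjSum, Finset.mem_univ, true_iff]
            trivial
          · simp only [A, Finset.inr_mem_disjSum, hT]
            rfl
        have hsum : ∑ w' ∈ A, Λ w' = 0 := by
          simp only [Λ]
          rw [Finset.sum_comm]
          refine Finset.sum_eq_zero fun x _ => ?_
          rw [← Finset.mul_sum]
          have h1 : ∑ w' ∈ A, PP χ w' (x : Hˣ) = 0 := by
            unfold PP
            rw [Finset.sum_comm]
            refine Finset.sum_eq_zero fun γ _ => ?_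
            rw [← Finset.mul_sum]
            have h2 : ∑ w' ∈ A, ((Real.log (av w' ((act γ (x : Hˣ) : Hˣ) : H)) : ℝ) : ℂ) = 0 := by
              rw [← Complex.ofReal_sum, prod_formula T (act γ (x : Hˣ)), Complex.ofReal_zero]
              intro w' hw'
              exact (act_mem D.S γ (x : Hˣ) x.2).1 w' fun hw'' => hw' ((hT w').2 hw'')
            rw [h2, mul_zero]
          rw [h1, mul_zero]
        have h1 : ∀ w' ∈ A, Λ w' = if (∀ i, ¬ Conj G w' (D.w i)) then Λ w else 0 := by
          intro w' hw'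
          split_ifs with h2
          · obtain ⟨γ, hγ⟩ := hχ' w' w ((hA w').1 hw') hw h2 hwi
            rw [hconj w' w γ hγ, hχ, MonoidHom.one_apply, Units.val_one, one_mul]
          · push Not at h2
            obtain ⟨i, γ, hγ⟩ := h2
            rw [hconj w' (D.w i) γ hγ, hΛi i, mul_zero]
        rw [Finset.sum_congr rfl h1, ← Finset.sum_filter, Finset.sum_const, nsmul_eq_mul] at hsum
        rcases mul_eq_zero.1 hsum with h2 | h2
        · exfalso
          have h3 : (A.filter fun w' => ∀ i, ¬ Conj G w' (D.w i)).card = 0 := by exact_mod_cast h2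
          rw [Finset.card_eq_zero] at h3
          have h4 : w ∈ A.filter fun w' => ∀ i, ¬ Conj G w' (D.w i) :=
            Finset.mem_filter.2 ⟨(hA w).2 hw, hwi⟩
          rw [h3] at h4
          exact absurd h4 (Finset.notMem_empty w)
        · exact h2
    -- the relation between the logarithms
    have h1 := loginj_complex hL D.S (ι := {x // x ∈ c.support} × G)
      (fun p => c p.1 * ((χ p.2 : ℂ))⁻¹)
      (fun p => ⟨act p.2 ((p.1 : US D.S H) : Hˣ), act_mem D.S p.2 _ (p.1 : US D.S H).2⟩) ?_ g
    · rw [LinearMap.mem_ker]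
      simp only [K, Finsupp.linearCombination_apply, Finsupp.sum, smul_eq_mul]
      rw [Fintype.sum_prod_type] at h1
      have h2 : ∀ (x : {x // x ∈ c.support}) (γ : G), c x * ((χ γ : ℂ))⁻¹ *
          g (Additive.ofMul ⟨act γ ((x : US D.S H) : Hˣ), act_mem D.S γ _ (x : US D.S H).2⟩) =
          c x * g (Additive.ofMul (x : US D.S H)) := by
        intro x γ
        rw [hg γ (x : US D.S H) ⟨act γ ((x : US D.S H) : Hˣ), act_mem D.S γ _ (x : US D.S H).2⟩ rfl]
        have h3 : (χ γ : ℂ) ≠ 0 := (χ γ).ne_zero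
        field_simp
      simp only [h2, Finset.sum_const, Finset.card_univ, nsmul_eq_mul] at h1
      rw [← Finset.mul_sum] at h1
      have hG : (Fintype.card G : ℂ) ≠ 0 := by
        exact_mod_cast Fintype.card_ne_zero
      have h4 := (mul_eq_zero.1 h1).resolve_left hG
      rw [← h4, Finset.sum_coe_sort c.support (fun x => c x * g (Additive.ofMul x))]
    · intro w hw
      have h2 := hΛ w hw
      simp only [Λ] at h2
      rw [Fintype.sum_prod_type]
      rw [← h2, ← Finset.sum_coe_sort c.support (fun x => c x * PP χ w (x : Hˣ))]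
      refine Finset.sum_congr rfl fun x _ => ?_
      unfold PP
      rw [Finset.mul_sum]
      refine Finset.sum_congr rfl fun γ _ => ?_
      ring
  have h2 := mem_span_of_iInf_ker_le_ker h
  obtain ⟨a, ha⟩ := (Submodule.mem_span_range_iff_exists_fun ℂ).1 h2
  refine ⟨a, fun x => ?_⟩
  have h3 := LinearMap.congr_fun ha (Finsupp.single x 1)
  simp only [L, K, LinearMap.sum_apply, LinearMap.smul_apply, Finsupp.linearCombination_single,
    smul_eq_mul, one_mul] at h3
  exact h3.symm

end

end Pool.Agent.K3h40.RS
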